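import Pool.Agent.Helper40.AC.Stmts

/-!
# Project AC: packet P12 (ALONG)
-/

open scoped ContDiff Topology Matrix Kronecker TensorProduct

namespace Pool.Agent.Helper35.AC

open Pool.Agent.Helper40.AC

/-- The ideal of the scalars which act on `M` through a projective module. -/
def facIdeal (B : Type) [CommRing B] (M : Type) [AddCommGroup M] [Module B M] : Ideal B where
  carrier := {b | ∃ (F : Type) (_ : AddCommGroup F) (_ : Module B F), Module.Projective B F ∧
    ∃ (a : M →ₗ[B] F) (c : F →ₗ[B] M), c ∘ₗ a = b • LinearMap.id}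
  zero_mem' := by
    refine ⟨B, inferInstance, inferInstance, inferInstance, 0, 0, ?_⟩
    rw [zero_smul, LinearMap.zero_comp]
  add_mem' := by
    rintro b b' ⟨F, i1, i2, i3, a, c, h⟩ ⟨F', i1', i2', i3', a', c', h'⟩
    refine ⟨F × F', inferInstance, inferInstance, inferInstance, a.prod a', c.coprod c', ?_⟩
    rw [LinearMap.coprod_comp_prod, h, h', add_smul]
  smul_mem' := by
    rintro r b ⟨F, i1, i2, i3, a, c, h⟩
    refine ⟨F, i1, i2, i3, r • a, c, ?_⟩
    rw [LinearMap.comp_smul, h, smul_smul, smul_eq_mul]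

lemma projective_of_facIdeal (B : Type) [CommRing B] (M : Type) [AddCommGroup M] [Module B M]
    (h : facIdeal B M = ⊤) : Module.Projective B M := by
  have h1 : (1 : B) ∈ facIdeal B M := by rw [h]; exact Submodule.mem_top
  obtain ⟨F, i1, i2, i3, a, c, hac⟩ := h1
  rw [one_smul] at hac
  exact Module.Projective.of_split a c hac

section

variable {P B X : Type} [CommRing P] [CommRing B] [Algebra P B] {ev : X → B →+* ℂ}

lemma baseChange_fac {S : Type} [AddCommGroup S] [Module P S] {n : ℕ} (e : P)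
    (α : S →ₗ[P] (Fin n → P)) (β : (Fin n → P) →ₗ[P] S)
    (h : β ∘ₗ α = e • (LinearMap.id : S →ₗ[P] S)) :
    (β.baseChange B) ∘ₗ (α.baseChange B) =
      (algebraMap P B e) • (LinearMap.id : (B ⊗[P] S) →ₗ[B] (B ⊗[P] S)) := by
  rw [← LinearMap.baseChange_comp, h]
  ext s
  simp [TensorProduct.smul_tmul', Algebra.smul_def]

lemma along_proj {S : Type} [AddCommGroup S] [Module P S]
    (hI : ∀ I : Ideal B, (∀ x, ∃ f ∈ I, ev x f ≠ 0) → I = ⊤)
    (hS : ProjAlong P ev S) : Module.Projective B (B ⊗[P] S) := by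
  refine projective_of_facIdeal B _ (hI _ ?_)
  intro x
  obtain ⟨e, he, n, α, β, h⟩ := hS x
  exact ⟨algebraMap P B e, ⟨B ⊗[P] (Fin n → P), inferInstance, inferInstance, inferInstance,
    α.baseChange B, β.baseChange B, baseChange_fac e α β h⟩, he⟩

lemma along_ker {S : Type} [AddCommGroup S] [Module P S] (hS : ProjAlong P ev S)
    (k : ℕ) (π : (Fin k → P) →ₗ[P] S) (hπ : Function.Surjective π) :
    ∀ x : X, ∃ e : P, ev x (algebraMap P B e) ≠ 0 ∧
      ∃ (β : (Fin k → P) →ₗ[P] LinearMap.ker π),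
        β ∘ₗ (LinearMap.ker π).subtype = e • (LinearMap.id : LinearMap.ker π →ₗ[P] _) := by
  intro x
  obtain ⟨e, he, n, α, β, h⟩ := hS x
  obtain ⟨bh, hbh⟩ := Module.projective_lifting_property π β hπ
  refine ⟨e, he, ?_⟩
  have hmem : ∀ v, (e • LinearMap.id - (bh ∘ₗ α) ∘ₗ π : (Fin k → P) →ₗ[P] (Fin k → P)) v ∈
      LinearMap.ker π := by
    intro v
    rw [LinearMap.mem_ker]
    have h1 : π (bh (α (π v))) = β (α (π v)) := LinearMap.congr_fun hbh _
    have h2 : β (α (π v)) = e • π v := LinearMap.congr_fun h _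
    simp only [LinearMap.sub_apply, LinearMap.smul_apply, LinearMap.id_apply,
      LinearMap.comp_apply, map_sub, map_smul]
    rw [h1, h2, sub_self]
  refine ⟨LinearMap.codRestrict (LinearMap.ker π) _ hmem, ?_⟩
  ext v
  have hv : π (v : Fin k → P) = 0 := v.2
  simp [hv]

end

theorem along_ok : S_ALONG := by
  intro P B X _ _ _ ev hI S _ _ _ hS
  refine ⟨⟨inferInstance, along_proj hI hS⟩, ?_⟩
  intro k π hπ
  have hK := along_ker hS k π hπ
  refine ⟨fun x => ?_, ?_⟩
  · obtain ⟨e, he, β, hβ⟩ := hK x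
    exact ⟨e, he, k, (LinearMap.ker π).subtype, β, hβ⟩
  have hproj : Module.Projective B (B ⊗[P] S) := along_proj hI hS
  have hex : Function.Exact ((LinearMap.ker π).subtype.baseChange B) (π.baseChange B) := by
    rw [LinearMap.baseChange_eq_ltensor, LinearMap.baseChange_eq_ltensor]
    exact lTensor_exact B (LinearMap.exact_subtype_ker_map π) hπ
  have hsurj : Function.Surjective (π.baseChange B) := by
    rw [LinearMap.baseChange_eq_ltensor]
    exact LinearMap.lTensor_surjective B hπ
  have hinj : Function.Injective ((LinearMap.ker π).subtype.baseChange B) := by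
    rw [← LinearMap.ker_eq_bot, LinearMap.ker_eq_bot']
    intro y hy
    have htop := hI (LinearMap.ker (LinearMap.toSpanSingleton B _ y)) (by
      intro x
      obtain ⟨e, he, β, hβ⟩ := hK x
      refine ⟨algebraMap P B e, ?_, he⟩
      rw [LinearMap.mem_ker, LinearMap.toSpanSingleton_apply]
      have h1 := LinearMap.congr_fun (baseChange_fac (B := B) e _ β hβ) y
      rw [LinearMap.comp_apply, hy, map_zero] at h1
      simpa using h1.symm)
    have h1 : (1 : B) ∈ LinearMap.ker (LinearMap.toSpanSingleton B _ y) := by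
      rw [htop]; exact Submodule.mem_top
    rw [LinearMap.mem_ker, LinearMap.toSpanSingleton_apply, one_smul] at h1
    exact h1
  obtain ⟨s, hs⟩ := Module.projective_lifting_property (π.baseChange B) LinearMap.id hsurj
  exact ⟨(hex.splitSurjectiveEquiv hinj ⟨s, hs⟩).1⟩

end Pool.Agent.Helper35.AC
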