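import Pool.Agent.Helper40.AC.Stmts

/-!
# Project AC: packet P05 (BLOCK)
-/

open scoped ContDiff Topology Matrix Kronecker
open MeasureTheory

namespace Pool.Agent.Helper35.AC

open Pool.Agent.Helper40.AC

lemma Fc_blocks {m n : Type} [Fintype m] [Fintype n] (hz : ∀ j : Fin 4, pd j 0 = 0)
    (e : Matrix m m BB) (f : Matrix n n BB) (j k : Fin 4) :
    Fc pd (Matrix.fromBlocks e 0 0 f) j k =
      Matrix.fromBlocks (Fc pd e j k) 0 0 (Fc pd f j k) := by
  unfold Fc
  have h0 : ∀ (a b : Type) (i : Fin 4), (0 : Matrix a b BB).map (pd i) = 0 := fun a b i =>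
    Matrix.map_zero _ (hz i)
  rw [Matrix.fromBlocks_map, Matrix.fromBlocks_map, h0, h0, h0, h0]
  rw [Matrix.fromBlocks_multiply, Matrix.fromBlocks_multiply]
  simp only [Matrix.mul_zero, Matrix.zero_mul, add_zero, zero_add]
  rw [sub_eq_add_neg, Matrix.fromBlocks_neg, Matrix.fromBlocks_add, Matrix.fromBlocks_multiply]
  simp only [Matrix.mul_zero, Matrix.zero_mul, add_zero, zero_add, neg_zero, ← sub_eq_add_neg]

lemma trace_blocks {m n : Type} [Fintype m] [Fintype n] (A : Matrix m m BB) (B : Matrix n n BB) :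
    (Matrix.fromBlocks A 0 0 B).trace = A.trace + B.trace := by
  simp [Matrix.trace, Fintype.sum_sum_type]

lemma om_blocks {m n : Type} [Fintype m] [Fintype n] (hz : ∀ j : Fin 4, pd j 0 = 0)
    (e : Matrix m m BB) (f : Matrix n n BB) (a b c d : Fin 4) :
    om pd (Matrix.fromBlocks e 0 0 f) a b c d = om pd e a b c d + om pd f a b c d := by
  unfold om
  simp only [Fc_blocks hz, Matrix.fromBlocks_multiply, Matrix.mul_zero, Matrix.zero_mul, add_zero,
    zero_add, trace_blocks]
  ring

theorem block_ok (h1 : S_PD) : S_BLOCK := by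
  obtain ⟨hadd, -, -, -, hc, hint⟩ := h1
  have hz : ∀ j : Fin 4, pd j 0 = 0 := fun j => by
    have := hc j 0
    rwa [map_zero] at this
  have ho : ∀ j : Fin 4, pd j 1 = 0 := fun j => by
    have := hc j 1
    rwa [map_one] at this
  refine ⟨?_, ?_, ?_⟩
  · intro m n _ _ e f
    unfold Phi
    rw [om_blocks hz]
    simp only [BB.fn_add]
    exact integral_add (hint _) (hint _)
  · intro n _ _
    have h : om pd (0 : Matrix n n BB) 0 1 2 3 = 0 := by
      have h2 : ∀ j k, Fc pd (0 : Matrix n n BB) j k = 0 := fun j k => by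
        unfold Fc
        rw [Matrix.zero_mul]
      unfold om
      simp only [h2, Matrix.trace_zero, sub_zero, add_zero, mul_zero]
    unfold Phi
    rw [h]
    simp
  · intro n _ _
    have h : om pd (1 : Matrix n n BB) 0 1 2 3 = 0 := by
      have h2 : ∀ j k, Fc pd (1 : Matrix n n BB) j k = 0 := fun j k => by
        have h3 : ∀ i, (1 : Matrix n n BB).map (pd i) = 0 := fun i => by
          ext a b
          rw [Matrix.map_apply, Matrix.one_apply]
          split_ifs
          · rw [ho]; rfl
          · rw [hz]; rfl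
        unfold Fc
        rw [h3, h3, Matrix.zero_mul, sub_zero, Matrix.mul_zero]
      unfold om
      simp only [h2, Matrix.trace_zero, sub_zero, add_zero, mul_zero]
    unfold Phi
    rw [h]
    simp

end Pool.Agent.Helper35.AC
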