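import Pool.Agent.Helper40.AC.Stmts2

/-!
# Project AC: packet P40 (DIM)
-/

open scoped ContDiff Topology
open Set Metric

namespace Pool.Agent.Helper35.AC

open Pool.Agent.Helper40.AC

/-- Straightening of a regular level set. -/
lemma straighten {ι : Type} [Fintype ι] {k : ℕ} (f : (ι → ℝ) → (Fin k → ℝ)) (U : Set (ι → ℝ))
    (hU : IsOpen U) (x : ι → ℝ) (hx : x ∈ U) (hf : ContDiffOn ℝ ∞ f U)
    (hs : Function.Surjective (fderiv ℝ f x)) (hfx : f x = 0) :
    ∃ (V : Submodule ℝ (ι → ℝ)) (π : (ι → ℝ) →L[ℝ] V) (r : ℝ) (φ : V → (ι → ℝ)),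
      V = LinearMap.ker (fderiv ℝ f x).toLinearMap ∧
      0 < r ∧ ContDiffOn ℝ ∞ φ (ball 0 r) ∧ φ 0 = x ∧
      (∀ v ∈ ball (0 : V) r, φ v ∈ U ∧ f (φ v) = 0 ∧ π (φ v - x) = v) ∧
      (∃ N ∈ 𝓝 x, ∀ y ∈ N, f y = 0 → y ∈ φ '' ball 0 r) := by
  obtain ⟨f', hf'⟩ : ∃ f', f' = fderiv ℝ f x := ⟨_, rfl⟩
  rw [← hf'] at hs ⊢
  obtain ⟨V, hV⟩ : ∃ V : Submodule ℝ (ι → ℝ), V = LinearMap.ker f'.toLinearMap := ⟨_, rfl⟩
  obtain ⟨π₀, hπ₀⟩ := LinearMap.exists_leftInverse_of_injective V.subtype (by simp)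
  let π : (ι → ℝ) →L[ℝ] V := LinearMap.toContinuousLinearMap π₀
  have hπ : ∀ v : V, π v = v := fun v => LinearMap.congr_fun hπ₀ v
  have hVm : ∀ v : ι → ℝ, v ∈ V ↔ f' v = 0 := fun v => by rw [hV]; rfl
  let L : (ι → ℝ) →L[ℝ] (Fin k → ℝ) × V := f'.prod π
  have hLinj : Function.Injective L := by
    rw [injective_iff_map_eq_zero]
    intro v hv
    have h1 : f' v = 0 := congrArg Prod.fst hv
    have h2 : π v = 0 := congrArg Prod.snd hv
    have h3 : v ∈ V := (hVm v).2 h1
    have h4 : π v = ⟨v, h3⟩ := hπ ⟨v, h3⟩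
    rw [h2] at h4
    exact (congrArg Subtype.val h4).symm
  have hLsurj : Function.Surjective L := by
    rintro ⟨a, b⟩
    obtain ⟨w, hw⟩ := hs a
    refine ⟨w + ((b - π w : V) : ι → ℝ), ?_⟩
    have h1 : f' ((b - π w : V) : ι → ℝ) = 0 := (hVm _).1 (b - π w : V).2
    apply Prod.ext
    · change f' _ = a
      rw [map_add, h1, hw, add_zero]
    · change π _ = b
      rw [map_add, hπ, add_sub_cancel]
  let Le : (ι → ℝ) ≃L[ℝ] (Fin k → ℝ) × V :=
    (LinearEquiv.ofBijective L.toLinearMap ⟨hLinj, hLsurj⟩).toContinuousLinearEquiv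
  have hLe : (Le : (ι → ℝ) →L[ℝ] (Fin k → ℝ) × V) = L := by
    ext1 v
    rfl
  let G : (ι → ℝ) → (Fin k → ℝ) × V := fun y => (f y, π (y - x))
  have hGs : ∀ y ∈ U, ContDiffAt ℝ ∞ G y := fun y hy =>
    (hf.contDiffAt (hU.mem_nhds hy)).prodMk
      (π.contDiff.contDiffAt.comp y (contDiffAt_id.sub contDiffAt_const))
  have hGd : HasFDerivAt G (Le : (ι → ℝ) →L[ℝ] (Fin k → ℝ) × V) x := by
    rw [hLe]
    have h1 : HasFDerivAt f f' x := by
      rw [hf']
      exact ((hf.contDiffAt (hU.mem_nhds hx)).differentiableAt (by simp)).hasFDerivAt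
    have h2 : HasFDerivAt (fun y => π (y - x)) π x := by
      simp only [map_sub]
      exact π.hasFDerivAt.sub_const _
    exact h1.prodMk h2
  let e := (hGs x hx).toOpenPartialHomeomorph G hGd (by simp)
  have he : (e : (ι → ℝ) → (Fin k → ℝ) × V) = G :=
    ContDiffAt.toOpenPartialHomeomorph_coe (hGs x hx) hGd (by simp)
  have hxs : x ∈ e.source := ContDiffAt.mem_toOpenPartialHomeomorph_source (hGs x hx) hGd (by simp)
  have hGx : G x = (0, 0) := by
    change (f x, π (x - x)) = (0, 0)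
    rw [hfx, sub_self, map_zero]
  have h0t : ((0, 0) : (Fin k → ℝ) × V) ∈ e.target := by
    have := e.map_source hxs
    rwa [he, hGx] at this
  have hsymm0 : e.symm (0, 0) = x := by
    have := e.left_inv hxs
    rwa [he, hGx] at this
  -- good neighbourhood of x
  have hfd : ContinuousAt (fderiv ℝ G) x :=
    ((hGs x hx).fderiv_right (m := ∞) (by norm_cast)).continuousAt
  have hN1 : ∀ᶠ y in 𝓝 x, y ∈ U ∧ ∃ e' : (ι → ℝ) ≃L[ℝ] (Fin k → ℝ) × V,
      (e' : (ι → ℝ) →L[ℝ] (Fin k → ℝ) × V) = fderiv ℝ G y := by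
    refine Filter.Eventually.and (hU.eventually_mem hx) ?_
    have h1 : range ((↑) : ((ι → ℝ) ≃L[ℝ] (Fin k → ℝ) × V) → _) ∈ 𝓝 (fderiv ℝ G x) := by
      rw [hGd.fderiv]
      exact ContinuousLinearEquiv.nhds Le
    exact hfd h1
  have hct : ContinuousAt (fun v : V => e.symm ((0 : Fin k → ℝ), v)) 0 := by
    have h1 : ContinuousAt e.symm ((0 : Fin k → ℝ), (0 : V)) := e.continuousAt_symm h0t
    exact ContinuousAt.comp (f := fun v : V => ((0 : Fin k → ℝ), v)) h1 (by fun_prop)
  have hgood : ∀ᶠ v in 𝓝 (0 : V), ((0 : Fin k → ℝ), v) ∈ e.target ∧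
      (e.symm ((0 : Fin k → ℝ), v) ∈ U ∧ ∃ e' : (ι → ℝ) ≃L[ℝ] (Fin k → ℝ) × V,
      (e' : (ι → ℝ) →L[ℝ] (Fin k → ℝ) × V) = fderiv ℝ G (e.symm ((0 : Fin k → ℝ), v))) := by
    refine Filter.Eventually.and ?_ ?_
    · have h1 : ContinuousAt (fun v : V => ((0 : Fin k → ℝ), v)) 0 := by fun_prop
      exact h1 (e.open_target.mem_nhds h0t)
    · have h2 : Filter.Tendsto (fun v : V => e.symm ((0 : Fin k → ℝ), v)) (𝓝 0) (𝓝 x) := by
        have := hct.tendsto
        rwa [hsymm0] at this
      exact h2.eventually hN1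
  obtain ⟨r, hr, hball⟩ := Metric.eventually_nhds_iff_ball.1 hgood
  refine ⟨V, π, r, fun v => e.symm ((0 : Fin k → ℝ), v), hV, hr, ?_, hsymm0, ?_, ?_⟩
  · intro v hv
    obtain ⟨ht, hvU, e', he'⟩ := hball v hv
    have h1 : ContDiffAt ℝ ∞ e.symm ((0 : Fin k → ℝ), v) := by
      refine e.contDiffAt_symm (f₀' := e') ht ?_ ?_
      · rw [he, he']
        exact ((hGs _ hvU).differentiableAt (by simp)).hasFDerivAt
      · rw [he]
        exact hGs _ hvU
    exact (ContDiffAt.comp (f := fun v : V => ((0 : Fin k → ℝ), v)) v h1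
      (by fun_prop)).contDiffWithinAt
  · intro v hv
    obtain ⟨ht, hvU, -⟩ := hball v hv
    have h1 := e.right_inv ht
    rw [he] at h1
    exact ⟨hvU, congrArg Prod.fst h1, congrArg Prod.snd h1⟩
  · have h1 : ∀ᶠ y in 𝓝 x, y ∈ e.source ∧ π (y - x) ∈ ball (0 : V) r := by
      refine Filter.Eventually.and (e.open_source.mem_nhds hxs) ?_
      have h2 : ContinuousAt (fun y => π (y - x)) x := by fun_prop
      have h3 : ball (0 : V) r ∈ 𝓝 (π (x - x)) := by
        rw [sub_self, map_zero]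
        exact ball_mem_nhds _ hr
      exact h2 h3
    refine ⟨_, h1, ?_⟩
    rintro y ⟨hy1, hy2⟩ hy3
    refine ⟨π (y - x), hy2, ?_⟩
    have h4 := e.left_inv hy1
    rw [he] at h4
    change e.symm (f y, π (y - x)) = y at h4
    rwa [hy3] at h4

lemma finrank_ker_of_surj {ι : Type} [Fintype ι] {k n : ℕ} (f' : (ι → ℝ) →L[ℝ] (Fin k → ℝ))
    (hs : Function.Surjective f') (hk : k + n = Fintype.card ι) :
    Module.finrank ℝ (LinearMap.ker f'.toLinearMap) = n := by
  have h1 := LinearMap.finrank_range_add_finrank_ker f'.toLinearMap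
  have h2 : LinearMap.range f'.toLinearMap = ⊤ := LinearMap.range_eq_top.2 hs
  rw [h2, finrank_top, Module.finrank_fin_fun, Module.finrank_fintype_fun_eq_card] at h1
  omega

lemma eval_hasFDerivAt {ι : Type} [Fintype ι] (p : MvPolynomial ι ℝ) (z : ι → ℝ) :
    HasFDerivAt (fun y : ι → ℝ => MvPolynomial.eval y p)
      (∑ j, (grad p z j) • (ContinuousLinearMap.proj j : (ι → ℝ) →L[ℝ] ℝ)) z := by
  classical
  unfold grad
  induction p using MvPolynomial.induction_on with
  | C a =>
    simp only [MvPolynomial.eval_C, MvPolynomial.pderiv_C, map_zero, zero_smul,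
      Finset.sum_const_zero]
    exact hasFDerivAt_const a z
  | add p q hp hq =>
    simp only [map_add, add_smul, Finset.sum_add_distrib]
    exact hp.add hq
  | mul_X p i hp =>
    have h1 : HasFDerivAt (fun y : ι → ℝ => y i) (ContinuousLinearMap.proj i) z :=
      (ContinuousLinearMap.proj i : (ι → ℝ) →L[ℝ] ℝ).hasFDerivAt
    have h2 := hp.mul h1
    simp only [map_mul, MvPolynomial.eval_X]
    refine h2.congr_fderiv ?_
    ext w
    simp only [MvPolynomial.pderiv_mul, map_add, map_mul, MvPolynomial.eval_X,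
      MvPolynomial.pderiv_X, Pi.single_apply, add_apply, smul_apply, sum_apply,
      ContinuousLinearMap.proj_apply, smul_eq_mul, add_mul, Finset.sum_add_distrib, Finset.mul_sum]
    have h3 : ∑ x, (MvPolynomial.eval z) p *
        (MvPolynomial.eval z) (if i = x then (1 : MvPolynomial ι ℝ) else 0) * w x =
        (MvPolynomial.eval z) p * w i := by
      rw [Finset.sum_eq_single i]
      · simp
      · intro b _ hb
        rw [if_neg (Ne.symm hb)]
        simp
      · intro h
        exact absurd (Finset.mem_univ _) h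
    rw [h3, add_comm]
    congr 1
    refine Finset.sum_congr rfl fun j _ => ?_
    ring

lemma eval_contDiff {ι : Type} [Fintype ι] (p : MvPolynomial ι ℝ) :
    ContDiff ℝ ∞ (fun y : ι → ℝ => MvPolynomial.eval y p) := by
  induction p using MvPolynomial.induction_on with
  | C a =>
    simp only [MvPolynomial.eval_C]
    exact contDiff_const
  | add p q hp hq =>
    simp only [map_add]
    exact hp.add hq
  | mul_X p i hp =>
    simp only [map_mul, MvPolynomial.eval_X]
    exact hp.mul (contDiff_apply ℝ ℝ i)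

lemma grad_surj {ι : Type} [Fintype ι] {k : ℕ} (P : Fin k → MvPolynomial ι ℝ) (z : ι → ℝ)
    (hl : LinearIndependent ℝ (fun i => grad (P i) z)) :
    Function.Surjective (fun w : ι → ℝ => fun i => ∑ j, grad (P i) z j * w j) := by
  classical
  let A : Matrix (Fin k) ι ℝ := Matrix.of (fun i j => grad (P i) z j)
  have h1 : A.rank = Fintype.card (Fin k) := LinearIndependent.rank_matrix hl
  have h2 : LinearMap.range A.mulVecLin = ⊤ := by
    refine Submodule.eq_top_of_finrank_eq ?_
    rw [Module.finrank_fintype_fun_eq_card]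
    exact h1
  intro b
  obtain ⟨w, hw⟩ := LinearMap.range_eq_top.1 h2 b
  exact ⟨w, hw⟩

theorem dim_ok : S_DIM := by
  intro ι _ M n d g hMc hM hg z hz hZ
  obtain ⟨hgs, hginj, hgimm⟩ := hg
  obtain ⟨k, P, hkd, hP0, hPl, U', hU', hU'Z⟩ := hZ
  -- the polynomial map
  obtain ⟨Q, hQ⟩ : ∃ Q : (ι → ℝ) → (Fin k → ℝ), Q = fun y i => MvPolynomial.eval y (P i) :=
    ⟨_, rfl⟩
  have hQs : ContDiff ℝ ∞ Q := by
    rw [hQ]
    exact contDiff_pi.2 fun i => eval_contDiff (P i)
  have hQd : HasFDerivAt Q (ContinuousLinearMap.pi fun i =>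
      ∑ j, (grad (P i) z j) • (ContinuousLinearMap.proj j : (ι → ℝ) →L[ℝ] ℝ)) z := by
    rw [hQ]
    exact hasFDerivAt_pi.2 fun i => eval_hasFDerivAt (P i) z
  have hQsurj : Function.Surjective (fderiv ℝ Q z) := by
    rw [hQd.fderiv]
    intro b
    obtain ⟨w, hw⟩ := grad_surj P z hPl b
    refine ⟨w, ?_⟩
    rw [← hw]
    ext i
    simp only [ContinuousLinearMap.pi_apply, sum_apply, smul_apply,
      ContinuousLinearMap.proj_apply, smul_eq_mul]
  have hQz : ∀ y ∈ g '' M, Q y = 0 := by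
    intro y hy
    rw [hQ]
    funext i
    exact hP0 i y hy
  refine le_antisymm ?_ ?_
  · -- Hausdorff dimension
    have h1 : dimH (g '' M) ≤ n := by
      refine hMc.induction_on (p := fun s => dimH (g '' s) ≤ n) ?_ ?_ ?_ ?_
      · simp
      · intro s t hst ht
        exact le_trans (dimH_mono (image_mono hst)) ht
      · intro s t hs ht
        rw [image_union, dimH_union]
        exact max_le hs ht
      · intro x hx
        obtain ⟨k', f, U, hk', hU, hxU, hf, hfs, hMU⟩ := hM x hx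
        have hfx : f x = 0 := by
          have h2 : x ∈ M ∩ U := ⟨hx, hxU⟩
          rw [hMU] at h2
          exact h2.2
        obtain ⟨V, π, r, φ, hV, hr, hφ, hφ0, hφM, N, hN, hNφ⟩ :=
          straighten f U hU x hxU hf hfs hfx
        have hmaps : MapsTo φ (ball 0 r) M := by
          intro v hv
          have h2 : φ v ∈ M ∩ U := by
            rw [hMU]
            exact ⟨(hφM v hv).1, (hφM v hv).2.1⟩
          exact h2.1
        have hfin : Module.finrank ℝ V = n := by
          rw [hV]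
          exact finrank_ker_of_surj _ hfs hk'
        refine ⟨M ∩ (N ∩ U), inter_mem_nhdsWithin _ (Filter.inter_mem hN (hU.mem_nhds hxU)), ?_⟩
        have hsub : g '' (M ∩ (N ∩ U)) ⊆ (g ∘ φ) '' ball 0 r := by
          rintro _ ⟨y, ⟨hyM, hyN, hyU⟩, rfl⟩
          have h2 : y ∈ M ∩ U := ⟨hyM, hyU⟩
          rw [hMU] at h2
          obtain ⟨v, hv, rfl⟩ := hNφ y hyN h2.2
          exact ⟨v, hv, rfl⟩
        refine le_trans (dimH_mono hsub) ?_
        have hcomp : ContDiffOn ℝ 1 (g ∘ φ) (ball 0 r) :=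
          (hgs.comp hφ hmaps).of_le (by norm_cast)
        refine le_trans (hcomp.dimH_image_le (convex_ball _ _) (Subset.refl _)) ?_
        refine le_trans (dimH_mono (subset_univ _)) ?_
        rw [Real.dimH_univ_eq_finrank, hfin]
    obtain ⟨V, π, r, φ, hV, hr, hφ, hφ0, hφM, -⟩ :=
      straighten Q univ isOpen_univ z (mem_univ _) hQs.contDiffOn hQsurj (hQz z hz)
    have hfin : Module.finrank ℝ V = d := by
      rw [hV]
      exact finrank_ker_of_surj _ hQsurj hkd
    have hφc : ContinuousAt φ 0 :=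
      (hφ.continuousOn.continuousAt (ball_mem_nhds _ hr))
    have h2 : ∀ᶠ v in 𝓝 (0 : V), φ v ∈ U' ∧ v ∈ ball (0 : V) r := by
      refine Filter.Eventually.and ?_ (ball_mem_nhds _ hr)
      have := hφc.tendsto
      rw [hφ0] at this
      exact this hU'
    have h3 : {v : V | φ v ∈ U' ∧ v ∈ ball (0 : V) r} ⊆ (fun y => π (y - z)) '' (g '' M) := by
      rintro v ⟨hv1, hv2⟩
      obtain ⟨-, h5, h6⟩ := hφM v hv2
      refine ⟨φ v, ?_, h6⟩
      refine hU'Z _ hv1 ?_
      intro i
      have := congrFun h5 i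
      rw [hQ] at this
      exact this
    have h4 : dimH {v : V | φ v ∈ U' ∧ v ∈ ball (0 : V) r} = d := by
      rw [Real.dimH_of_mem_nhds h2, hfin]
    have h5 : dimH ((fun y => π (y - z)) '' (g '' M)) ≤ dimH (g '' M) := by
      have hlip : LipschitzWith ‖π‖₊ (fun y => π (y - z)) := by
        refine LipschitzWith.of_dist_le_mul fun a b => ?_
        rw [dist_eq_norm, ← map_sub, sub_sub_sub_cancel_right, dist_eq_norm]
        exact π.le_opNorm _
      exact hlip.dimH_image_le _
    have h6 : ((d : ℕ) : ENNReal) ≤ n := by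
      rw [← h4]
      exact le_trans (dimH_mono h3) (le_trans h5 h1)
    exact_mod_cast h6
  · -- the derivative of the parametrisation is injective
    obtain ⟨x, hx, hxz⟩ := hz
    obtain ⟨k', f, U, hk', hU, hxU, hf, hfs, hMU⟩ := hM x hx
    have hfx : f x = 0 := by
      have h2 : x ∈ M ∩ U := ⟨hx, hxU⟩
      rw [hMU] at h2
      exact h2.2
    obtain ⟨V, π, r, φ, hV, hr, hφ, hφ0, hφM, -⟩ := straighten f U hU x hxU hf hfs hfx
    have hmaps : MapsTo φ (ball 0 r) M := by
      intro v hv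
      have h2 : φ v ∈ M ∩ U := by
        rw [hMU]
        exact ⟨(hφM v hv).1, (hφM v hv).2.1⟩
      exact h2.1
    have hfin : Module.finrank ℝ V = n := by
      rw [hV]
      exact finrank_ker_of_surj _ hfs hk'
    have hφd : DifferentiableAt ℝ φ 0 :=
      (hφ.contDiffAt (ball_mem_nhds _ hr)).differentiableAt (by simp)
    have hcomp : ContDiffOn ℝ ∞ (g ∘ φ) (ball 0 r) := hgs.comp hφ hmaps
    have hgd : DifferentiableAt ℝ (g ∘ φ) 0 :=
      (hcomp.contDiffAt (ball_mem_nhds _ hr)).differentiableAt (by simp)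
    -- the derivative of φ is injective
    have hφinj : ∀ u : V, fderiv ℝ φ 0 u = 0 → u = 0 := by
      intro u hu
      have h1 : HasFDerivAt (fun v => π (φ v - x)) (π.comp (fderiv ℝ φ 0)) 0 :=
        π.hasFDerivAt.comp 0 (hφd.hasFDerivAt.sub_const x)
      have h2 : HasFDerivAt (fun v => π (φ v - x)) (ContinuousLinearMap.id ℝ V) 0 := by
        refine (hasFDerivAt_id (0 : V)).congr_of_eventuallyEq ?_
        filter_upwards [ball_mem_nhds (0 : V) hr] with v hv
        exact (hφM v hv).2.2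
      have h3 := congrArg (fun A => A u) (h1.unique h2)
      simp only [ContinuousLinearMap.comp_apply, hu, map_zero, ContinuousLinearMap.id_apply] at h3
      exact h3.symm
    have hginj' : ∀ u : V, fderiv ℝ (g ∘ φ) 0 u = 0 → u = 0 := by
      intro u hu
      by_contra hne
      obtain ⟨u', hu'⟩ : ∃ u' : V, u' = (r / (2 * ‖u‖)) • u := ⟨_, rfl⟩
      have hnu : 0 < ‖u‖ := norm_pos_iff.2 hne
      have hnu' : ‖u'‖ = r / 2 := by
        rw [hu', norm_smul, Real.norm_of_nonneg (by positivity)]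
        field_simp
      have hu'0 : u' ≠ 0 := by
        intro h0
        rw [h0, norm_zero] at hnu'
        linarith
      have hc : ContDiff ℝ ∞ (fun s : ℝ => Real.sin s • u') :=
        Real.contDiff_sin.smul contDiff_const
      have hcb : ∀ s : ℝ, Real.sin s • u' ∈ ball (0 : V) r := by
        intro s
        rw [mem_ball_zero_iff, norm_smul, hnu']
        have h1 : ‖Real.sin s‖ ≤ 1 := Real.abs_sin_le_one s
        nlinarith
      have hcd : HasDerivAt (fun s : ℝ => Real.sin s • u') u' 0 := by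
        have h1 := (Real.hasDerivAt_sin 0).smul_const u'
        rwa [Real.cos_zero, one_smul] at h1
      have hc0 : Real.sin 0 • u' = 0 := by rw [Real.sin_zero, zero_smul]
      have hγ : ContDiff ℝ ∞ (fun s : ℝ => φ (Real.sin s • u')) := hφ.comp_contDiff hc hcb
      have hγd : HasDerivAt (fun s : ℝ => φ (Real.sin s • u')) (fderiv ℝ φ 0 u') 0 := by
        have h1 : HasFDerivAt φ (fderiv ℝ φ 0) (Real.sin 0 • u') := by
          rw [hc0]; exact hφd.hasFDerivAt
        exact h1.comp_hasDerivAt 0 hcd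
      have hgγd : HasDerivAt (fun s : ℝ => g (φ (Real.sin s • u'))) (fderiv ℝ (g ∘ φ) 0 u') 0 := by
        have h1 : HasFDerivAt (g ∘ φ) (fderiv ℝ (g ∘ φ) 0) (Real.sin 0 • u') := by
          rw [hc0]; exact hgd.hasFDerivAt
        exact h1.comp_hasDerivAt 0 hcd
      have h1 := hgimm (fun s : ℝ => φ (Real.sin s • u')) hγ (fun s => hmaps (hcb s)) (by
        rw [hγd.deriv]
        intro h0
        exact hu'0 (hφinj u' h0))
      rw [hgγd.deriv, hu', map_smul, hu, smul_zero] at h1
      exact h1 rfl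
    -- the range is contained in the kernel
    have hker : ∀ u : V, fderiv ℝ (g ∘ φ) 0 u ∈ LinearMap.ker (fderiv ℝ Q z).toLinearMap := by
      intro u
      have h0 : (g ∘ φ) 0 = z := by
        change g (φ 0) = z
        rw [hφ0, hxz]
      have h1 : HasFDerivAt (fun v => Q ((g ∘ φ) v))
          ((fderiv ℝ Q z).comp (fderiv ℝ (g ∘ φ) 0)) 0 := by
        have h2 : HasFDerivAt Q (fderiv ℝ Q z) ((g ∘ φ) 0) := by
          rw [h0]
          exact (hQs.differentiable (by simp) z).hasFDerivAt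
        exact h2.comp 0 hgd.hasFDerivAt
      have h2 : HasFDerivAt (fun v => Q ((g ∘ φ) v)) (0 : V →L[ℝ] (Fin k → ℝ)) 0 := by
        refine (hasFDerivAt_const (0 : Fin k → ℝ) (0 : V)).congr_of_eventuallyEq ?_
        filter_upwards [ball_mem_nhds (0 : V) hr] with v hv
        exact hQz _ ⟨φ v, hmaps hv, rfl⟩
      have h3 := congrArg (fun A => A u) (h1.unique h2)
      exact h3
    have hle := LinearMap.finrank_le_finrank_of_injective
      (f := (LinearMap.codRestrict (LinearMap.ker (fderiv ℝ Q z).toLinearMap)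
        (fderiv ℝ (g ∘ φ) 0).toLinearMap hker)) (by
        rw [injective_iff_map_eq_zero]
        intro u hu
        exact hginj' u (congrArg Subtype.val hu))
    rw [hfin, finrank_ker_of_surj _ hQsurj hkd] at hle
    exact hle

end Pool.Agent.Helper35.AC
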