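import Pool.Agent.Helper40.AC.Stmts

/-!
# Project AC: packet P07 (KRON)
-/

open scoped ContDiff Topology Matrix Kronecker
open MeasureTheory

namespace Pool.Agent.Helper35.AC

open Pool.Agent.Helper40.AC

section

variable {S ι m n : Type} [CommRing S] [Fintype m] [DecidableEq m] [Fintype n] [DecidableEq n]
  (D : ι → S → S)

lemma D_sum {κ : Type} (hadd : ∀ i x y, D i (x + y) = D i x + D i y) (i : ι) (s : Finset κ)
    (f : κ → S) : D i (∑ k ∈ s, f k) = ∑ k ∈ s, D i (f k) :=
  map_sum (AddMonoidHom.mk' (D i) (hadd i)) f s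

lemma map_mul_D (hadd : ∀ i x y, D i (x + y) = D i x + D i y)
    (hmul : ∀ i x y, D i (x * y) = D i x * y + x * D i y) (i : ι) (A B : Matrix m m S) :
    (A * B).map (D i) = A.map (D i) * B + A * B.map (D i) := by
  ext a b
  rw [Matrix.map_apply, Matrix.mul_apply, D_sum D hadd, Matrix.add_apply, Matrix.mul_apply,
    Matrix.mul_apply, ← Finset.sum_add_distrib]
  refine Finset.sum_congr rfl fun k _ => ?_
  rw [hmul, Matrix.map_apply, Matrix.map_apply]

lemma idem_D (hadd : ∀ i x y, D i (x + y) = D i x + D i y)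
    (hmul : ∀ i x y, D i (x * y) = D i x * y + x * D i y) (e : Matrix m m S) (he : e * e = e)
    (i : ι) : e.map (D i) * e + e * e.map (D i) = e.map (D i) := by
  rw [← map_mul_D D hadd hmul, he]

lemma idem_zero (hadd : ∀ i x y, D i (x + y) = D i x + D i y)
    (hmul : ∀ i x y, D i (x * y) = D i x * y + x * D i y) (e : Matrix m m S) (he : e * e = e)
    (i : ι) : e * e.map (D i) * e = 0 := by
  have h := congrArg (fun X => e * X) (idem_D D hadd hmul e he i)
  simp only [Matrix.mul_add, ← Matrix.mul_assoc, he] at h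
  exact add_eq_right.1 h

lemma comm_D (hadd : ∀ i x y, D i (x + y) = D i x + D i y)
    (hmul : ∀ i x y, D i (x * y) = D i x * y + x * D i y) (e : Matrix m m S) (he : e * e = e)
    (i j : ι) : e.map (D i) * e.map (D j) * e = e * e.map (D i) * e.map (D j) := by
  have hi := idem_D D hadd hmul e he i
  have hj := idem_D D hadd hmul e he j
  have h1 : e.map (D i) * e.map (D j) * e = e.map (D i) * (e.map (D j) - e * e.map (D j)) := by
    rw [Matrix.mul_assoc]
    congr 1
    rw [eq_sub_iff_add_eq]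
    exact hj
  have h2 : e * e.map (D i) * e.map (D j) = (e.map (D i) - e.map (D i) * e) * e.map (D j) := by
    congr 1
    rw [eq_sub_iff_add_eq, add_comm]
    exact hi
  rw [h1, h2, Matrix.mul_sub, Matrix.sub_mul, Matrix.mul_assoc]

lemma e_Fc (e : Matrix m m S) (he : e * e = e) (j k : ι) : e * Fc D e j k = Fc D e j k := by
  unfold Fc
  rw [← Matrix.mul_assoc, he]

lemma Fc_e (hadd : ∀ i x y, D i (x + y) = D i x + D i y)
    (hmul : ∀ i x y, D i (x * y) = D i x * y + x * D i y) (e : Matrix m m S) (he : e * e = e)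
    (j k : ι) : Fc D e j k * e = Fc D e j k := by
  unfold Fc
  rw [Matrix.mul_assoc, Matrix.sub_mul, comm_D D hadd hmul e he, comm_D D hadd hmul e he,
    Matrix.mul_assoc e, Matrix.mul_assoc e, ← Matrix.mul_sub, ← Matrix.mul_assoc, he]

lemma map_kron (hadd : ∀ i x y, D i (x + y) = D i x + D i y)
    (hmul : ∀ i x y, D i (x * y) = D i x * y + x * D i y) (e : Matrix m m S) (g : Matrix n n S)
    (i : ι) : (e ⊗ₖ g).map (D i) = e.map (D i) ⊗ₖ g + e ⊗ₖ g.map (D i) := by
  ext ⟨a, b⟩ ⟨c, d⟩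
  simp only [Matrix.map_apply, Matrix.add_apply, Matrix.kroneckerMap_apply]
  exact hmul i _ _

lemma Fc_kron (hadd : ∀ i x y, D i (x + y) = D i x + D i y)
    (hmul : ∀ i x y, D i (x * y) = D i x * y + x * D i y) (e : Matrix m m S) (g : Matrix n n S)
    (he : e * e = e) (hg : g * g = g) (j k : ι) :
    Fc D (e ⊗ₖ g) j k = Fc D e j k ⊗ₖ g + e ⊗ₖ Fc D g j k := by
  have key : ∀ i i' : ι, (e ⊗ₖ g) * ((e ⊗ₖ g).map (D i) * (e ⊗ₖ g).map (D i')) =
      (e * (e.map (D i) * e.map (D i'))) ⊗ₖ g + e ⊗ₖ (g * (g.map (D i) * g.map (D i'))) := by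
    intro i i'
    rw [map_kron D hadd hmul, map_kron D hadd hmul]
    simp only [Matrix.mul_add, Matrix.add_mul, ← Matrix.mul_kronecker_mul]
    have z1 : e * (e.map (D i) * e) = 0 := by
      rw [← Matrix.mul_assoc]; exact idem_zero D hadd hmul e he i
    have z2 : g * (g.map (D i) * g) = 0 := by
      rw [← Matrix.mul_assoc]; exact idem_zero D hadd hmul g hg i
    rw [z1, z2, he, he, hg, hg, Matrix.zero_kronecker, Matrix.kronecker_zero, add_zero, zero_add]
  unfold Fc
  rw [Matrix.mul_sub, key, key, Matrix.mul_sub, Matrix.mul_sub]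
  ext ⟨a, b⟩ ⟨c, d⟩
  simp only [Matrix.sub_apply, Matrix.add_apply, Matrix.kroneckerMap_apply]
  ring

end

theorem kron_ok : S_KRON := by
  intro S ι m n _ _ _ _ _ D hadd hmul e g he hg htr a b c d
  have key : ∀ j k j' k' : ι, (Fc D (e ⊗ₖ g) j k * Fc D (e ⊗ₖ g) j' k').trace =
      g.trace * (Fc D e j k * Fc D e j' k').trace + e.trace * (Fc D g j k * Fc D g j' k').trace := by
    intro j k j' k'
    rw [Fc_kron D hadd hmul e g he hg, Fc_kron D hadd hmul e g he hg]
    simp only [Matrix.mul_add, Matrix.add_mul, ← Matrix.mul_kronecker_mul, Matrix.trace_add,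
      Matrix.trace_kronecker]
    rw [he, hg, Fc_e D hadd hmul e he, e_Fc D e he, htr, htr]
    ring
  unfold om
  rw [key, key, key]
  ring

end Pool.Agent.Helper35.AC
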